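import Pool.Agent.Lib.MP_c8fb4d_co.Fs
import Pool.Agent.Lib.MP_c8fb4d_co.Cyclic

namespace Pool.Agent.Results.MP_c8fb4d_co.FourSpheres

open Pool.Agent.Lib.MP_c8fb4d_co Pool.Agent.Lib.MP_c8fb4d_co.Rep

/-- Face lattices of shellable four-dimensional spheres: a lower bound for the number of edges and
the generalized upper bound theorem with an explicit loss for edges and two-dimensional faces. -/
theorem result (L : Type) [Lattice L] [Fintype L] [BoundedOrder L] (ρ : L → ℕ)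
    (h0 : ρ ⊥ = 0) (htop : ρ ⊤ = 6) (hρ : ∀ x y : L, x ⋖ y → ρ y = ρ x + 1)
    (hthin : ∀ x y : L, x ≤ y → ρ y = ρ x + 2 → (Set.Ioo x y).ncard = 2)
    (hs : ∃ φ, Shelling 6 (⊤ : L) φ) (f : ℕ → ℕ) (hf : ∀ k, f k = {G : L | ρ G = k + 1}.ncard) :
    f 4 + 4 * f 0 ≤ 2 * f 1 ∧
    ∀ n, 6 ≤ n → faceNumber (cyclicPolytope 5 n) 4 ≤ f 4 →
      (∀ k, k = 0 ∨ k = 3 ∨ k = 4 → faceNumber (cyclicPolytope 5 n) k ≤ f k) ∧
      faceNumber (cyclicPolytope 5 n) 1 + 2 * f 0 + 6 ≤ f 1 + 3 * n ∧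
      faceNumber (cyclicPolytope 5 n) 2 + f 0 + 6 ≤ f 2 + 2 * n := by
  classical
  obtain ⟨φ, hφ⟩ := hs
  obtain ⟨m, hm⟩ := rd_ml hρ hthin (φ := φ) (htop ▸ hφ)
  have e : ∀ k, f k = m.f ⊥ ⊤ (k + 1) := fun k => by
    rw [hf, ML.f, ← Set.ncard_coe_finset]
    congr 1
    ext G
    simp [ML.mem_I, hm]
  have g0 : m.ρ ⊥ = 0 := hm ▸ h0
  have g6 : m.ρ ⊤ = 6 := hm ▸ htop
  have a1 : f 4 + 4 * f 0 ≤ 2 * f 1 := by simpa only [e] using m.fs_edges g0 g6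
  have a2 : 2 * f 1 + f 0 ≤ f 0 * f 0 := by simpa only [e] using m.edges_le g0
  have a3 : 5 * f 4 ≤ 2 * f 3 := by simpa only [e] using m.ridges_le (d := 4) g0 g6
  have a4 : f 0 + f 2 + f 4 = f 1 + f 3 + 2 := by
    simpa only [e] using m.euler6 (le_top (a := ⊥)) g0 g6
  refine ⟨a1, fun n hn h => ?_⟩
  obtain ⟨c0, c1, c2, c3, c4⟩ := cyclic_five hn
  zify at a1 a2 a3 a4 h hn
  refine ⟨fun k hk => ?_, by zify; nlinarith, by zify; nlinarith⟩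
  rcases hk with rfl | rfl | rfl <;> zify
  · rw [c0]
    by_contra hc
    have h1 : (f 0 : ℤ) ≤ n - 1 := by omega
    have h2 : (0 : ℤ) ≤ f 0 := Nat.cast_nonneg _
    have h3 : (6 : ℤ) ≤ f 0 := by nlinarith
    nlinarith
  · linarith
  · exact h

/-- The statement of the problem holds when there are at least `2 n - 6` vertices. -/
theorem many_vertices (L : Type) [Lattice L] [Fintype L] [BoundedOrder L] (ρ : L → ℕ)
    (h0 : ρ ⊥ = 0) (htop : ρ ⊤ = 6) (hρ : ∀ x y : L, x ⋖ y → ρ y = ρ x + 1)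
    (hthin : ∀ x y : L, x ≤ y → ρ y = ρ x + 2 → (Set.Ioo x y).ncard = 2)
    (hs : ∃ φ, Shelling 6 (⊤ : L) φ) (f : ℕ → ℕ) (hf : ∀ k, f k = {G : L | ρ G = k + 1}.ncard)
    (n : ℕ) (hn : 6 ≤ n) (h : faceNumber (cyclicPolytope 5 n) 4 ≤ f 4) (hv : 2 * n ≤ f 0 + 6)
    (k : ℕ) (hk : k ≤ 4) : faceNumber (cyclicPolytope 5 n) k ≤ f k := by
  obtain ⟨a, b, c⟩ := (result L ρ h0 htop hρ hthin hs f hf).2 n hn h
  interval_cases k
  · exact a 0 (by simp)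
  · omega
  · omega
  · exact a 3 (by simp)
  · exact h

end Pool.Agent.Results.MP_c8fb4d_co.FourSpheres
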