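import Pool.Agent.Lib.MP_c8fb4d_co.RepFin
import Pool.Agent.Lib.MP_c8fb4d_co.RepRed

namespace Pool.Agent.Results.MP_c8fb4d_co.RepresentableSpheres

open Pool.Agent.Lib.MP_c8fb4d_co Pool.Agent.Lib.MP_c8fb4d_co.Rep

/-- The generalized upper bound theorem for face lattices of shellable spheres whose faces below
the facets are represented by linear subspaces over some field. -/
theorem result (L : Type) [Lattice L] [Fintype L] [BoundedOrder L] (ρ : L → ℕ) (d : ℕ)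
    (hd : 2 ≤ d) (h0 : ρ ⊥ = 0) (htop : ρ ⊤ = d + 1) (hρ : ∀ x y : L, x ⋖ y → ρ y = ρ x + 1)
    (hthin : ∀ x y : L, x ≤ y → ρ y = ρ x + 2 → (Set.Ioo x y).ncard = 2)
    (hs : ∃ φ, Shelling (d + 1) (⊤ : L) φ)
    (F E : Type) [Field F] [AddCommGroup E] [Module F E] [FiniteDimensional F E]
    (W : L → Submodule F E) (hmono : ∀ G G', G ≤ G' → ρ G' ≤ d - 1 → W G ≤ W G')
    (hrk : ∀ G, ρ G ≤ d - 1 → Module.finrank F (W G) = ρ G)
    (hsep : ∀ B G G', B ⋖ G → B ⋖ G' → ρ G ≤ d - 1 → W G = W G' → G = G')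
    (n : ℕ) (hn : d + 1 ≤ n)
    (h : faceNumber (cyclicPolytope d n) (d - 1) ≤ {G : L | ρ G = d}.ncard)
    (k : ℕ) (hk : k ≤ d - 1) :
    faceNumber (cyclicPolytope d n) k ≤ {G : L | ρ G = k + 1}.ncard := by
  classical
  obtain ⟨φ, hφ⟩ := hs
  obtain ⟨K, E', _, _, _, _, _, r, hr⟩ := reduce ρ hd h0 htop hρ hthin hφ W hmono hrk hsep
  have e : ∀ j, {G : L | ρ G = j}.ncard = r.m.f ⊥ ⊤ j := fun j => by
    rw [ML.f, ← Set.ncard_coe_finset]
    congr 1
    ext G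
    simp [ML.mem_I, hr]
  have e' : ∀ k, faceNumber (cyclicPolytope d n) k = (faceML (hom (cyc d n))).f ⊥ ⊤ (k + 1) :=
    faceNumber_eq (cyc d n)
  rw [e, e', show d - 1 + 1 = d by omega] at h
  rw [e, e']
  exact compare_rep hd (hr ▸ htop) hn h (k + 1) (by omega) (by omega)

/-- The special case in which all faces below the facets are simplices; the facets are arbitrary. -/
theorem simplicial_ridges (L : Type) [Lattice L] [Fintype L] [BoundedOrder L] (ρ : L → ℕ) (d : ℕ)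
    (hd : 2 ≤ d) (h0 : ρ ⊥ = 0) (htop : ρ ⊤ = d + 1) (hρ : ∀ x y : L, x ⋖ y → ρ y = ρ x + 1)
    (hthin : ∀ x y : L, x ≤ y → ρ y = ρ x + 2 → (Set.Ioo x y).ncard = 2)
    (hs : ∃ φ, Shelling (d + 1) (⊤ : L) φ)
    (hsimp : ∀ G, ρ G ≤ d - 1 → {v | ρ v = 1 ∧ v ≤ G}.ncard = ρ G)
    (n : ℕ) (hn : d + 1 ≤ n)
    (h : faceNumber (cyclicPolytope d n) (d - 1) ≤ {G : L | ρ G = d}.ncard)
    (k : ℕ) (hk : k ≤ d - 1) :
    faceNumber (cyclicPolytope d n) k ≤ {G : L | ρ G = k + 1}.ncard := by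
  classical
  let b := Pi.basisFun ℚ L
  refine result L ρ d hd h0 htop hρ hthin hs ℚ (L → ℚ)
    (fun G => Submodule.span ℚ (b '' {v | ρ v = 1 ∧ v ≤ G}))
    (fun G G' c _ => Submodule.span_mono (Set.image_mono fun v hv => ⟨hv.1, hv.2.trans c⟩))
    (fun G c => ?_) (fun B G G' c c' c'' e => ?_) n hn h k hk
  · rw [finrank_span_set_eq_card ((b.linearIndependent.linearIndepOn _).id_image),
      ← Set.ncard_eq_toFinset_card', Set.ncard_image_of_injective _ b.injective, hsimp G c]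
  · by_contra hne
    have e1 : G ⊓ G' = B := by
      refine (c.eq_or_eq (le_inf c.le c'.le) inf_le_left).resolve_right fun e => hne ?_
      exact ((c'.eq_or_eq c.le (inf_eq_left.1 e)).resolve_left c.ne')
    have e2 : {v | ρ v = 1 ∧ v ≤ G} = {v | ρ v = 1 ∧ v ≤ B} := by
      ext v
      refine ⟨fun hv => ⟨hv.1, e1 ▸ le_inf hv.2 ?_⟩, fun hv => ⟨hv.1, hv.2.trans c.le⟩⟩
      have : b v ∈ Submodule.span ℚ (b '' {v | ρ v = 1 ∧ v ≤ G'}) :=
        e ▸ Submodule.subset_span ⟨v, hv, rfl⟩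
      exact (b.self_mem_span_image.1 this).2
    have r1 := hρ B G c
    have r2 := hsimp G c''
    rw [e2, hsimp B (by omega)] at r2
    omega

end Pool.Agent.Results.MP_c8fb4d_co.RepresentableSpheres
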