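import Pool.Agent.Lib.MP_c8fb4d_co.SphFin
import Pool.Agent.Lib.MP_c8fb4d_co.SphBridge
import Pool.Agent.Lib.MP_c8fb4d_co.SphBM

namespace Pool.Agent.Results.MP_c8fb4d_co.ShellableSpheres

open Pool.Agent.Lib.MP_c8fb4d_co Pool.Agent.Lib.MP_c8fb4d_co.Sph

/-- The generalized upper bound theorem for shellable spheres whose cells are convex polytopes. -/
theorem result (N d : ℕ) (hd : 2 ≤ d) (K : Set (Set (EuclideanSpace ℝ (Fin N))))
    (hK : IsComplex K) (hs : ∃ φ, IsShelling (d - 1) K φ)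
    (hthin : ∀ R ∈ cells K (d - 2), {F | F ∈ cells K (d - 1) ∧ IsExposed ℝ F R}.ncard = 2)
    (hfold : ∀ j, j + 3 ≤ d → ∀ R ∈ cells K j, ∀ F ∈ cells K (j + 1), ∀ G ∈ cells K (j + 1),
      F ≠ G → IsExposed ℝ F R → IsExposed ℝ G R → F ∩ G ⊆ R)
    (n : ℕ) (hn : d + 1 ≤ n)
    (h : faceNumber (cyclicPolytope d n) (d - 1) ≤ (cells K (d - 1)).ncard)
    (k : ℕ) (hk : k ≤ d - 1) :
    faceNumber (cyclicPolytope d n) k ≤ (cells K k).ncard := by
  classical
  obtain ⟨φ, hφ⟩ := hs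
  obtain ⟨L, _, _, _, g, ψ, h1, h2, h3⟩ := bridge hd hK hφ hthin hfold
  have e' : ∀ k, faceNumber (cyclicPolytope d n) k = (faceML (hom (cyc d n))).f ⊥ ⊤ (k + 1) :=
    faceNumber_eq (cyc d n)
  rw [e', h3 _ le_rfl, show d - 1 + 1 = d by omega] at h
  rw [e', h3 _ hk]
  convert compare_geo hd h1 h2 hn (by convert h) (k + 1) (by omega) (by omega)

/-- The special case of the boundary complex of an arbitrary convex polytope. -/
theorem all_polytopes (d : ℕ) (hd : 2 ≤ d) (S : Finset (EuclideanSpace ℝ (Fin d)))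
    (hS : affineSpan ℝ (S : Set (EuclideanSpace ℝ (Fin d))) = ⊤) (n : ℕ) (hn : d + 1 ≤ n)
    (h : faceNumber (cyclicPolytope d n) (d - 1) ≤
      faceNumber (convexHull ℝ (S : Set (EuclideanSpace ℝ (Fin d)))) (d - 1))
    (k : ℕ) (hk : k ≤ d - 1) :
    faceNumber (cyclicPolytope d n) k ≤
      faceNumber (convexHull ℝ (S : Set (EuclideanSpace ℝ (Fin d)))) k := by
  obtain ⟨h1, h2, h3, h4, h5⟩ := polytope_boundary hd S hS _ rfl
  rw [← h5 _ le_rfl] at h
  rw [← h5 k hk]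
  exact result d d hd _ h1 h2 h3 h4 n hn h k hk

end Pool.Agent.Results.MP_c8fb4d_co.ShellableSpheres
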